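import Pool.Agent.MP_255345_an.Bs.Main

/-! A dichotomy for rational maps with empty Fatou set in terms of backward stable points. -/

open Set Filter Topology MeasureTheory Polynomial Pool.Agent.MP_255345_an

namespace Pool.Agent.Results.MP_255345_an.BackStable

theorem result (f : OnePoint ℂ → OnePoint ℂ) (P Q : Polynomial ℂ) (hf : Continuous f) (hQ : Q ≠ 0)
    (hPQ : IsCoprime P Q) (hd : 2 ≤ max P.natDegree Q.natDegree)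
    (hr : ∀ z : ℂ, Q.eval z ≠ 0 → f (z : OnePoint ℂ) = ((P.eval z / Q.eval z : ℂ) : OnePoint ℂ))
    (hJ : ∀ z : OnePoint ℂ, ¬ ∃ V ∈ nhds z, ∀ w ∈ V, ∀ W : Set (OnePoint ℂ × OnePoint ℂ),
      IsOpen W → (∀ p : OnePoint ℂ, (p, p) ∈ W) →
        ∃ U ∈ nhds w, ∀ n : ℕ, ∀ y ∈ U, (f^[n] w, f^[n] y) ∈ W) :
    ((∀ᵐ z : ℂ, omegaLimit atTop (fun (n : ℕ) (x : OnePoint ℂ) => f^[n] x) {(z : OnePoint ℂ)} =
        univ) ∧
      (∀ A : Set (OnePoint ℂ), NullMeasurableSet {z : ℂ | (z : OnePoint ℂ) ∈ A} volume →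
        ∀ᵐ z : ℂ, (z : OnePoint ℂ) ∈ A → ∃ n, 0 < n ∧ f^[n] z ∈ A) ∧
      ∀ A : Set (OnePoint ℂ), NullMeasurableSet {z : ℂ | (z : OnePoint ℂ) ∈ A} volume →
        MapsTo f A A → (∀ᵐ z : ℂ, (z : OnePoint ℂ) ∉ A) ∨ ∀ᵐ z : ℂ, (z : OnePoint ℂ) ∈ A) ∨
    ∀ᵐ z : ℂ, ∀ Y ⊆ omegaLimit atTop (fun (n : ℕ) (x : OnePoint ℂ) => f^[n] x) {(z : OnePoint ℂ)},
      Y.Nonempty → IsClosed Y → MapsTo f Y Y →
        ((∀ c ∈ Y, Stable f c) → ∃ c ∈ Y, IsCrit f c) ∧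
          ∀ a ∈ omegaLimit atTop (fun (n : ℕ) (x : OnePoint ℂ) => f^[n] x) {(z : OnePoint ℂ)},
            Stable f a → Shrinks f a → a ∈ Y ∧ ∃ c ∈ Y, IsCrit f c := by
  let _ : Sp (OnePoint ℂ) := ⟨inferInstance, inferInstance, stTop.1, stTop.2⟩
  refine or_iff_not_imp_right.2 fun hn => ?_
  obtain ⟨⟨P', Q', h⟩, hB, i0⟩ := Bs.main f P Q hf hQ hPQ hd hr (fun ⟨z, hz⟩ => hJ z hz) hn
  obtain ⟨-, -, e1, e2⟩ := stEmb 0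
  obtain ⟨i1, i2⟩ := stImp stNull _ f _ _ P' Q' h hB
  refine ⟨(e1 fun x => om f x = univ).1 (i2 (i1 i0)), fun A hA =>
    (e1 fun x => x ∈ A → ∃ n, 0 < n ∧ f^[n] x ∈ A).1 (i1 i0 A ((e2 A).2 hA)), fun A hA hfA => ?_⟩
  have := i0 A ((e2 A).2 hA) hfA
  rw [nul_iff, nul_iff, e1 (· ∉ A), e1 (· ∉ Aᶜ)] at this
  simpa using this

end Pool.Agent.Results.MP_255345_an.BackStable
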