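import Pool.Agent.Mg.F255345.Gb3e356
import Pool.Agent.Mg.F255345.Gd120a0
import Pool.Agent.Mg.F255345.Gb59a5c

/-! A dichotomy for rational maps with empty Fatou set and an expanding invariant set. -/

open Set Filter Topology MeasureTheory Polynomial Pool.Agent.MP_255345_an

namespace Pool.Agent.Results.MP_255345_an.Dichotomy

theorem result (f : OnePoint ℂ → OnePoint ℂ) (P Q : Polynomial ℂ) (hf : Continuous f) (hQ : Q ≠ 0)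
    (hPQ : IsCoprime P Q) (hd : 2 ≤ max P.natDegree Q.natDegree)
    (hr : ∀ z : ℂ, Q.eval z ≠ 0 → f (z : OnePoint ℂ) = ((P.eval z / Q.eval z : ℂ) : OnePoint ℂ))
    (hJ : ∀ z : OnePoint ℂ, ¬ ∃ V ∈ nhds z, ∀ w ∈ V, ∀ W : Set (OnePoint ℂ × OnePoint ℂ),
      IsOpen W → (∀ p : OnePoint ℂ, (p, p) ∈ W) →
        ∃ U ∈ nhds w, ∀ n : ℕ, ∀ y ∈ U, (f^[n] w, f^[n] y) ∈ W)
    (K : Set (OnePoint ℂ)) (hK : IsClosed K) (hKi : K.Infinite) (hKu : K ≠ univ)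
    (hfK : MapsTo f K K) (hX : Expanding f K) :
    ((∀ᵐ z : ℂ, omegaLimit atTop (fun (n : ℕ) (x : OnePoint ℂ) => f^[n] x) {(z : OnePoint ℂ)} =
        univ) ∧
      (∀ A : Set (OnePoint ℂ), NullMeasurableSet {z : ℂ | (z : OnePoint ℂ) ∈ A} volume →
        ∀ᵐ z : ℂ, (z : OnePoint ℂ) ∈ A → ∃ n, 0 < n ∧ f^[n] z ∈ A) ∧
      ∀ A : Set (OnePoint ℂ), NullMeasurableSet {z : ℂ | (z : OnePoint ℂ) ∈ A} volume →
        MapsTo f A A → (∀ᵐ z : ℂ, (z : OnePoint ℂ) ∉ A) ∨ ∀ᵐ z : ℂ, (z : OnePoint ℂ) ∈ A) ∨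
    ∀ᵐ z : ℂ, (∀ a, Visits f K z a → ¬ Good f K a) ∧ (∃ c, Pers f K c ∧ Visits f K z c) ∧
      ∀ a ∈ omegaLimit atTop (fun (n : ℕ) (x : OnePoint ℂ) => f^[n] x) {(z : OnePoint ℂ)},
        (∀ n, f^[n] a ∉ K) → ∃ c, Pers f K c ∧ Visits f K z c ∧ Visits f K c a := by
  let _ : Sp (OnePoint ℂ) := ⟨inferInstance, inferInstance, stTop.1, stTop.2⟩
  have := stTop.1
  obtain ⟨f1, f2⟩ := stFin f P Q hQ hPQ hd hr
  have r1 := stRat stEmb f P Q hf hQ hr f1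
  have ho := stOpen stEmb f hf f1 r1
  have ch : ∀ k : ℂ, ∃ P' Q', Ch f (ek k) k P' Q' := fun k =>
    let ⟨P', Q', h⟩ := r1 k
    ⟨P', Q', hf, ho, f1, f2, (stEmb k).1, (stEmb k).2.1, h⟩
  have fin : ∀ S : Set (OnePoint ℂ), S.Infinite → ∃ k : ℂ, (k : OnePoint ℂ) ∈ S := fun S hS => by
    obtain ⟨x, hx, hx'⟩ := hS.exists_notMem_finite (finite_singleton OnePoint.infty)
    obtain ⟨k, rfl⟩ := OnePoint.ne_infty_iff_exists.1 hx'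
    exact ⟨k, hx⟩
  have hB : Blow f := fun D hD hn => by
    by_contra hc
    obtain ⟨k, hk⟩ := fin _ hc
    obtain ⟨P', Q', h⟩ := ch k
    obtain ⟨a, ha, ha'⟩ := Set.Infinite.exists_notMem_finite hc (finite_singleton (k : OnePoint ℂ))
    obtain ⟨b, hb, hb'⟩ := Set.Infinite.exists_notMem_finite hc (toFinite {(k : OnePoint ℂ), a})
    obtain ⟨a, rfl⟩ := h.ex ha'
    obtain ⟨b, rfl⟩ := h.ex fun h1 => hb' (Or.inl h1)
    have key : ∀ y ∈ (⋃ n, f^[n] '' D)ᶜ, ∀ n, ∀ x ∈ D, f^[n] x ≠ y := fun y hy n x hx e1 =>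
      hy (mem_iUnion.2 ⟨n, x, hx, e1⟩)
    obtain ⟨z, hz⟩ := stMon stSch _ f _ _ P' Q' h D a b hD hn
      (fun e1 => hb' (Or.inr (by rw [e1]; rfl)))
      fun n x hx => ⟨key _ hk n x hx, key _ ha n x hx, key _ hb n x hx⟩
    exact hJ z hz
  obtain ⟨k, hk⟩ := fin K hKi
  obtain ⟨P', Q', h⟩ := ch k
  obtain ⟨-, -, e1, e2⟩ := stEmb k
  obtain ⟨N, hN, hU⟩ := back_of_exp stTop hf ho hK hfK hX
  obtain ⟨k', hk'⟩ := fin Kᶜ fun h1 =>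
    h.not_nul hK.isOpen_compl (nonempty_compl.2 hKu) (h.nul_finite h1)
  obtain ⟨P'', Q'', h'⟩ := ch k'
  obtain ⟨O, W, hb, h0⟩ := thin h' hB hK hk' hN hU
  have h1 : nul (ek k) {w | ∀ j, f^[j * N] w ∈ O} := by
    rw [nul_iff, (stEmb k').2.2.1 (· ∉ {w | ∀ j, f^[j * N] w ∈ O})] at h0
    rwa [nul_iff, e1 (· ∉ {w | ∀ j, f^[j * N] w ∈ O})]
  have h2 : ∀ t, nul (ek k) (f^[t] ⁻¹' {w | ∀ j, f^[j * N] w ∈ O}) := fun t => by
    induction t with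
    | zero => exact h1
    | succ t ih => exact (stNull _ f _ _ P' Q' h _).2.1 ih
  have hx : ∀ᵐ z, ∀ t, ∃ j, f^[j * N] (f^[t] (ek k z)) ∉ O :=
    ae_all_iff.2 fun t => (nul_iff.1 (h2 t)).mono fun z hz => not_forall.1 hz
  refine or_iff_not_imp_right.2 fun hn => ?_
  have hG : ∃ᵐ z, Good f K (ek k z) := fun hG => hn <| (e1 fun x =>
      (∀ a, Visits f K x a → ¬ Good f K a) ∧ (∃ c, Pers f K c ∧ Visits f K x c) ∧
      ∀ a ∈ om f x, (∀ n, f^[n] a ∉ K) → ∃ c, Pers f K c ∧ Visits f K x c ∧ Visits f K c a).1 <| by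
    filter_upwards [hG, hx] with z z1 z2
    refine comb hf hK hfK f2 (fun n h3 => ?_) z1
    obtain ⟨j, hj⟩ := z2 n
    exact hj (hb.2.1 (hfK.iterate _ h3))
  have i0 := main2 h hB hK hKi hk hfK hb hx hG
  obtain ⟨i1, i2⟩ := stImp stNull _ f _ _ P' Q' h hB
  refine ⟨(e1 fun x => om f x = univ).1 (i2 (i1 i0)), fun A hA =>
    (e1 fun x => x ∈ A → ∃ n, 0 < n ∧ f^[n] x ∈ A).1 (i1 i0 A ((e2 A).2 hA)), fun A hA hfA => ?_⟩
  have := i0 A ((e2 A).2 hA) hfA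
  rw [nul_iff, nul_iff, e1 (· ∉ A), e1 (· ∉ Aᶜ)] at this
  simpa using this

end Pool.Agent.Results.MP_255345_an.Dichotomy
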